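import Pool.Agent.Q151.Ships.All

/-!
# MP_e24151_co: toughest density for two 3-point patterns

`M^2_3 = 1/2`.
-/

set_option autoImplicit false

namespace Pool.Agent.Results.MP_e24151_co.ToughestHalf

open Filter Topology

/-- A `k`-ship: integers `a 0 < a 1 < … < a (k-1)`. -/
structure Ship (k : ℕ) where
  /-- the points -/
  a : Fin k → ℤ
  /-- they are increasing -/
  mono : StrictMono a

/-- The shooting pattern with set of shots `X` hits the ship `S`: every translate of `S` contains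
a shot. -/
def Hits {k : ℕ} (X : Set ℤ) (S : Ship k) : Prop := ∀ t : ℤ, ∃ j, t + S.a j ∈ X

/-- The shooting pattern with set of shots `X` has density `δ`:
`(1/(2N+1)) ∑_{|i| ≤ N} x_i → δ`. -/
def HasDensity (X : Set ℤ) (δ : ℝ) : Prop :=
  Tendsto (fun N : ℕ => (∑ i ∈ Finset.Icc (-(N : ℤ)) N, X.indicator (fun _ => (1 : ℝ)) i) /
    (2 * N + 1)) atTop (𝓝 δ)

/-- `π(F)`: the infimum of the densities of the patterns that hit all ships of the family. -/
noncomputable def toughness {n k : ℕ} (F : Fin n → Ship k) : ℝ :=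
  sInf {δ | ∃ X : Set ℤ, (∀ i, Hits X (F i)) ∧ HasDensity X δ}

/-- `M^n_k`: the supremum of `π(F)` over the families of `n` ships of size `k`. -/
noncomputable def M (n k : ℕ) : ℝ := sSup (Set.range fun F : Fin n → Ship k => toughness F)

open Q151.Ships

theorem sum_eq_cnt (X : Set ℤ) (N : ℕ) :
    (∑ i ∈ Finset.Icc (-(N : ℤ)) N, X.indicator (fun _ => (1 : ℝ)) i) =
      cnt X (-(N : ℤ)) (2 * N + 1) := by
  classical
  have h1 : Finset.Icc (-(N : ℤ)) N = (Finset.range (2 * N + 1)).image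
      (fun i : ℕ => -(N : ℤ) + i) := by
    ext x
    simp only [Finset.mem_Icc, Finset.mem_image, Finset.mem_range]
    constructor
    · intro h
      exact ⟨(x + N).toNat, by omega, by omega⟩
    · rintro ⟨i, hi, rfl⟩
      omega
  rw [h1, Finset.sum_image (fun a _ b _ h => by simpa using h)]
  unfold cnt
  rw [Finset.card_filter]
  push_cast
  apply Finset.sum_congr rfl
  intro i _
  by_cases h : -(N : ℤ) + i ∈ X
  · rw [Set.indicator_of_mem h, if_pos h]
  · rw [Set.indicator_of_notMem h, if_neg h]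

theorem hasDensity_iff (X : Set ℤ) (δ : ℝ) : HasDensity X δ ↔ HasDens X δ := by
  unfold HasDensity HasDens
  simp only [sum_eq_cnt]

theorem cnt_nonneg_dens {X : Set ℤ} {δ : ℝ} (h : HasDensity X δ) : 0 ≤ δ := by
  rw [hasDensity_iff] at h
  exact ge_of_tendsto' h fun N => by positivity

theorem univ_dens : HasDensity Set.univ 1 := by
  rw [hasDensity_iff]
  have h : Per (Set.univ : Set ℤ) 1 1 := ⟨one_pos, fun x => by simp, by simp [cnt]⟩
  simpa using h.dens

theorem set_nonempty {n k : ℕ} (hk : 0 < k) (F : Fin n → Ship k) :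
    {δ | ∃ X : Set ℤ, (∀ i, Hits X (F i)) ∧ HasDensity X δ}.Nonempty :=
  ⟨1, Set.univ, fun _ _ => ⟨⟨0, hk⟩, trivial⟩, univ_dens⟩

theorem set_bdd {n k : ℕ} (F : Fin n → Ship k) :
    BddBelow {δ | ∃ X : Set ℤ, (∀ i, Hits X (F i)) ∧ HasDensity X δ} :=
  ⟨0, by rintro δ ⟨X, -, h⟩; exact cnt_nonneg_dens h⟩

/-- Upper bound. -/
theorem upper (F : Fin 2 → Ship 3) : toughness F ≤ 1 / 2 := by
  have key : ∀ (S : Ship 3) (X : Set ℤ), Hit X (S.a 1 - S.a 0) (S.a 2 - S.a 0) → Hits X S := by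
    intro S X h t
    rcases h (t + S.a 0) with h1 | h1 | h1
    · exact ⟨0, h1⟩
    · exact ⟨1, by rwa [show t + S.a 0 + (S.a 1 - S.a 0) = t + S.a 1 by ring] at h1⟩
    · exact ⟨2, by rwa [show t + S.a 0 + (S.a 2 - S.a 0) = t + S.a 2 by ring] at h1⟩
  have h01 : ∀ S : Ship 3, S.a 0 < S.a 1 := fun S => S.mono (by decide)
  have h12 : ∀ S : Ship 3, S.a 1 < S.a 2 := fun S => S.mono (by decide)
  have a1 := h01 (F 0)
  have a2 := h12 (F 0)
  have b1 := h01 (F 1)
  have b2 := h12 (F 1)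
  obtain ⟨X, P, K, hP, hK, hA, hB⟩ := ok_all ((F 0).a 1 - (F 0).a 0) ((F 0).a 2 - (F 0).a 0)
    ((F 1).a 1 - (F 1).a 0) ((F 1).a 2 - (F 1).a 0) (by omega) (by omega) (by omega) (by omega)
    (by omega) (by omega)
  have hle : toughness F ≤ (K : ℝ) / P := by
    apply csInf_le (set_bdd F)
    refine ⟨X, ?_, (hasDensity_iff _ _).2 hP.dens⟩
    intro i
    fin_cases i
    · exact key _ _ hA
    · exact key _ _ hB
  refine hle.trans ?_
  have hP0 : (0 : ℝ) < P := by exact_mod_cast hP.1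
  rw [div_le_div_iff₀ hP0 (by norm_num)]
  have : (2 * K : ℝ) ≤ P := by exact_mod_cast hK
  linarith

/-- The two ships `[0,1,2]` and `[0,1,3]`. -/
def F0 : Fin 2 → Ship 3 := ![⟨![0, 1, 2], by decide⟩, ⟨![0, 1, 3], by decide⟩]

theorem lower_cnt {X : Set ℤ} (h : ∀ i, Hits X (F0 i)) (L : ℕ) : ∀ x : ℤ,
    L ≤ 2 * cnt X x L + 6 := by
  classical
  have hA : ∀ t : ℤ, t ∈ X ∨ t + 1 ∈ X ∨ t + 2 ∈ X := by
    intro t
    obtain ⟨j, hj⟩ := h 0 t
    fin_cases j
    · left; simpa [F0] using hj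
    · right; left; simpa [F0] using hj
    · right; right; simpa [F0] using hj
  have hB : ∀ t : ℤ, t ∈ X ∨ t + 1 ∈ X ∨ t + 3 ∈ X := by
    intro t
    obtain ⟨j, hj⟩ := h 1 t
    fin_cases j
    · left; simpa [F0] using hj
    · right; left; simpa [F0] using hj
    · right; right; simpa [F0] using hj
  induction L using Nat.strong_induction_on with
  | _ L ih =>
  intro x
  by_cases hL : L < 6
  · omega
  by_cases h4 : 2 ≤ cnt X x 4
  · have h1 := cnt_add X x 4 (L - 4)
    rw [show 4 + (L - 4) = L by omega] at h1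
    have h2 := ih (L - 4) (by omega) (x + (4 : ℕ))
    omega
  · have h6 : 3 ≤ cnt X x 6 := by
      have a0 := hA x
      have a1 := hA (x + 1)
      have a2 := hA (x + 2)
      have b0 := hB x
      have b2 := hB (x + 2)
      rw [show x + 1 + 1 = x + 2 by ring, show x + 1 + 2 = x + 3 by ring] at a1
      rw [show x + 2 + 1 = x + 3 by ring, show x + 2 + 2 = x + 4 by ring] at a2
      rw [show x + 2 + 1 = x + 3 by ring, show x + 2 + 3 = x + 5 by ring] at b2
      unfold cnt at h4 ⊢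
      rw [Finset.card_filter] at h4 ⊢
      simp only [Finset.sum_range_succ, Finset.sum_range_zero, zero_add, Nat.cast_zero,
        Nat.cast_one, add_zero, Nat.cast_ofNat] at h4 ⊢
      by_cases m0 : x ∈ X <;> by_cases m1 : x + 1 ∈ X <;> by_cases m2 : x + 2 ∈ X <;>
      by_cases m3 : x + 3 ∈ X <;> by_cases m4 : x + 4 ∈ X <;> by_cases m5 : x + 5 ∈ X <;>
      simp only [m0, m1, m2, m3, m4, m5, if_true, if_false, true_or, or_true, or_self] at h4 a0 a1 a2 b0 b2 ⊢ <;>
      omega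
    have h1 := cnt_add X x 6 (L - 6)
    rw [show 6 + (L - 6) = L by omega] at h1
    have h2 := ih (L - 6) (by omega) (x + (6 : ℕ))
    omega

/-- Lower bound. -/
theorem lower : 1 / 2 ≤ toughness F0 := by
  apply le_csInf (set_nonempty (by norm_num) F0)
  rintro δ ⟨X, hX, hδ⟩
  rw [hasDensity_iff] at hδ
  have hlim : Tendsto (fun N : ℕ => (1 / 2 : ℝ) - 3 / (2 * N + 1)) atTop (𝓝 (1 / 2 - 0)) := by
    apply Tendsto.sub tendsto_const_nhds
    apply Tendsto.const_div_atTop
    apply tendsto_atTop_add_const_right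
    exact (tendsto_natCast_atTop_atTop).const_mul_atTop (by norm_num)
  rw [sub_zero] at hlim
  apply le_of_tendsto_of_tendsto' hlim hδ
  intro N
  have h1 := lower_cnt hX (2 * N + 1) (-(N : ℤ))
  have h2 : ((2 * N + 1 : ℕ) : ℝ) ≤ 2 * (cnt X (-(N : ℤ)) (2 * N + 1) : ℝ) + 6 := by
    exact_mod_cast h1
  push_cast at h2
  have hN : (0 : ℝ) < 2 * N + 1 := by positivity
  rw [div_sub_div _ _ (by norm_num) hN.ne', div_le_div_iff₀ (by positivity) hN]
  nlinarith

/-- **The answer to Q1 is yes**: `M^2_3 = 1/2`.  The supremum is attained: some family of two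
3-ships needs density exactly `1/2`. -/
theorem result : M 2 3 = 1 / 2 ∧ ∃ F : Fin 2 → Ship 3, toughness F = 1 / 2 := by
  have h1 : toughness F0 = 1 / 2 := le_antisymm (upper F0) lower
  refine ⟨le_antisymm ?_ ?_, F0, h1⟩
  · have hne : (Set.range fun F : Fin 2 → Ship 3 => toughness F).Nonempty := ⟨_, F0, rfl⟩
    apply csSup_le hne
    rintro _ ⟨F, rfl⟩
    exact upper F
  · apply le_csSup
    · refine ⟨1 / 2, ?_⟩
      rintro _ ⟨F, rfl⟩
      exact upper F
    · exact ⟨F0, h1⟩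

end Pool.Agent.Results.MP_e24151_co.ToughestHalf
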